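import Pool.Agent.H304R6.Conv

set_option autoImplicit false

namespace Pool.Agent.Results.MP_eea520_nt.EdgeBessel

open Complex Filter Topology Pool.Agent.H304R6

open Classical in
/-- Let `G` be a group (for instance the L-group `GSpin_{2n+1}(ℂ)` of `GSp_{2n}`), `ρ` a
representation of `G` of degree `m`, and `A p ∈ G` (for instance the Satake classes of an
automorphic representation `π`) such that the eigenvalues of `ρ (A p)`, `p ∉ S`, have absolute
value at most `p^w` (`w = 0` when `π` is tempered outside `S`). For a Dirichlet character `χ`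
let `twistL ρ A S χ s = ∏_{p ∉ S} det (1 - χ(p) ρ(A p) p^{-s})⁻¹`.

(1) The products converge and do not vanish for `Re s > 1 + w`.
(2) The mean square of the traces `tr ρ(A p) p^{-w}` is at most `m²`.
(3) If this mean square is at most `R`, then for every finite set `F` of pairs `(χ, τ)`, `χ`
primitive (of any modulus), `τ` real, and every `δ > 0`, for all small `ε > 0`,
`∑_{(χ,τ) ∈ F} (log |L(1 + w + ε + iτ, χ)|)² ≤ (R + δ) (log (1/ε))²`.
(4) If moreover `L(s, χ)` extends meromorphically to a neighbourhood of `1 + w + iτ`, for every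
`(χ, τ) ∈ F`, the orders `r (χ, τ)` of the extensions there satisfy `∑ r² ≤ R`. -/
theorem result {G : Type*} [Group G] {m : ℕ} (ρ : G →* GL (Fin m) ℂ) (A : Nat.Primes → G)
    (S : Finset Nat.Primes) (w : ℝ)
    (hA : ∀ p ∉ S, ∀ α ∈ (mat ρ A p).charpoly.roots, ‖α‖ ≤ (p : ℝ) ^ w) :
    (∀ (N : ℕ) (χ : DirichletCharacter ℂ N) (s : ℂ), 1 + w < s.re →
      (Multipliable fun p : Nat.Primes => if p ∈ S then (1 : ℂ) else
        (Matrix.det (1 - (χ p * ((p : ℕ) : ℂ) ^ (-s)) • mat ρ A p))⁻¹) ∧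
        twistL ρ A S χ s ≠ 0) ∧
    MeanSquareLe ρ A S w ((m : ℝ) ^ 2) ∧
    ∀ R : ℝ, MeanSquareLe ρ A S w R →
      ∀ F : Finset ((Σ N : ℕ, DirichletCharacter ℂ N) × ℝ),
      (∀ k ∈ F, k.1.1 ≠ 0 ∧ k.1.2.IsPrimitive) →
      (∀ δ : ℝ, 0 < δ → ∀ᶠ ε : ℝ in 𝓝[>] 0,
        ∑ k ∈ F, (Real.log ‖twistL ρ A S k.1.2 (1 + w + ε + k.2 * I)‖) ^ 2 ≤
          (R + δ) * (Real.log (1 / ε)) ^ 2) ∧
      ∀ Λ : (Σ N : ℕ, DirichletCharacter ℂ N) × ℝ → ℂ → ℂ,
        (∀ k ∈ F, MeromorphicAt (Λ k) (1 + w + k.2 * I)) →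
        (∀ k ∈ F, ∀ᶠ s in 𝓝 (1 + w + k.2 * I : ℂ), 1 + w < s.re →
          Λ k s = twistL ρ A S k.1.2 s) →
        ∃ r : (Σ N : ℕ, DirichletCharacter ℂ N) × ℝ → ℤ,
          (∀ k ∈ F, meromorphicOrderAt (Λ k) (1 + w + k.2 * I) = r k) ∧
          (∑ k ∈ F, (r k : ℝ) ^ 2) ≤ R := by
  refine ⟨fun N χ s hs => converges hA χ hs, meanSquareLe_sq hA,
    fun R hR F hF => ⟨fun δ hδ => ?_, ?_⟩⟩
  · exact near_bessel hA hR F hF hδ
  · exact fun Λ hΛ hΛL => orders_bessel hA hR F hF Λ hΛ hΛL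

end Pool.Agent.Results.MP_eea520_nt.EdgeBessel
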