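import Pool.Agent.H68T.Apply

set_option autoImplicit false

namespace Pool.Agent.Results.MP_eea520_nt.TwistedEdgeDivisor

open Complex Pool.Agent.H68T

/-- Let `A_p` (`p ∉ S`) be complex `d × d` matrices (for the problem: `ρ(A_p)`, `A_p` the Satake
class of `π_p`, `π` an automorphic representation of `GSp(2n)`, `d = dim ρ`) all of whose
eigenvalues have absolute value at most `p^θ`, and for a Dirichlet character `χ` modulo `N` let
`L_S(s, χ) = ∏_{p ∉ S, p ∤ N} det(1 - χ(p) p^{-s} A_p)⁻¹`. If for all `χ` modulo `N` the function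
`L_S(s, χ)` extends meromorphically across every point `1 + θ + i t` of the edge, then the orders
`m(χ, t)` of these extensions are finite, they vanish for all but finitely many pairs `(χ, t)`, and
`|∑ m(χ, t) χ(a) e^{itx}| ≤ d` for all `a` prime to `N` and all real `x`. For `a = 1`, `x = 0` this
says that the number of zeros minus the number of poles, over all the twists and the whole edge, is
at most `d` in absolute value. -/
theorem result {d : ℕ} (A : Nat.Primes → Matrix (Fin d) (Fin d) ℂ) (S : Finset Nat.Primes) (θ : ℝ)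
    (hA : ∀ p ∉ S, ∀ β ∈ (A p).charpoly.roots, ‖β‖ ≤ (p : ℝ) ^ θ) (N : ℕ) [NeZero N]
    (Λ : DirichletCharacter ℂ N → ℂ → ℂ)
    (hΛ : ∀ χ, ∀ s : ℂ, s.re = 1 + θ → MeromorphicAt (Λ χ) s)
    (hΛL : ∀ χ, ∀ s : ℂ, 1 + θ < s.re → Λ χ s = twistedL A S χ s) :
    ∃ (T : Finset (DirichletCharacter ℂ N × ℝ)) (m : DirichletCharacter ℂ N × ℝ → ℤ),
      (∀ k, meromorphicOrderAt (Λ k.1) (1 + θ + k.2 * I) = m k) ∧
      (∀ k, k ∈ T ↔ m k ≠ 0) ∧
      ∀ (a : (ZMod N)ˣ) (x : ℝ),
        ‖∑ k ∈ T, (m k : ℂ) * (k.1 a * Complex.exp (((k.2 * x : ℝ) : ℂ) * I))‖ ≤ d := by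
  obtain ⟨T, m, h1, h2, -, h4⟩ := twist_global hA Λ hΛ hΛL
  exact ⟨T, m, h1, h2, h4⟩

end Pool.Agent.Results.MP_eea520_nt.TwistedEdgeDivisor
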